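import Pool.Agent.Helper93.ET.St

set_option autoImplicit false

/-!
# Project ET, module ETA: the algebra of the rows `x` with `x = x^(q) F` is etale

Homomorphisms of `A`-algebras `EF q F → B` are the rows `x` in `B^n` with `x = x^(q) F`.  Modulo an ideal of
square zero such a row has the unique lift `x'^(q) F`, with `x'` any lift.
-/

noncomputable section

namespace Pool.Agent.Helper12.ET

open MvPolynomial Matrix Pool.Agent.Helper93.ET

/-- additivity of the `p^a`-th power in a ring with `p = 0` -/
theorem add_pow_q {B : Type} [CommRing B] (p a : ℕ) (hp : p.Prime) (h0 : (p : B) = 0) (x y : B) :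
    (x + y) ^ p ^ a = x ^ p ^ a + y ^ p ^ a := by
  rcases subsingleton_or_nontrivial B with h | h
  · exact Subsingleton.elim _ _
  · have : Fact p.Prime := ⟨hp⟩
    have : CharP B p := by
      obtain ⟨c, hc⟩ := CharP.exists B
      have h1 : c ∣ p := (CharP.cast_eq_zero_iff B c p).1 h0
      rcases (Nat.dvd_prime hp).1 h1 with h2 | h2
      · exact absurd h2 (CharP.char_ne_one B c)
      · rw [← h2]; exact hc
    exact add_pow_char_pow x y p a

/-- two elements congruent modulo a square zero ideal have the same `q`-th power -/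
theorem pow_q_eq {B : Type} [CommRing B] (p a : ℕ) (hp : p.Prime) (ha : 1 ≤ a) (h0 : (p : B) = 0)
    (I : Ideal B) (hI : I ^ 2 = ⊥) (x y : B) (h : x - y ∈ I) : x ^ p ^ a = y ^ p ^ a := by
  have h2 : 2 ≤ p ^ a := le_trans hp.two_le (Nat.le_self_pow (by omega) p)
  have ht : (x - y) ^ p ^ a = 0 := by
    obtain ⟨m, hm⟩ := Nat.exists_eq_add_of_le h2
    rw [hm, pow_add]
    have : (x - y) ^ 2 ∈ I ^ 2 := Ideal.pow_mem_pow h 2
    rw [hI, Ideal.mem_bot] at this
    rw [this, zero_mul]
  have := add_pow_q p a hp h0 (x - y) y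
  rw [sub_add_cancel, ht, zero_add] at this
  exact this

/-- the class of the variable -/
def xv {A : Type} [CommRing A] {n : ℕ} (q : ℕ) (F : Matrix (Fin n) (Fin n) A) (j : Fin n) : EF q F :=
  Ideal.Quotient.mk (relF q F) (X j)

theorem xv_rel {A : Type} [CommRing A] {n : ℕ} (q : ℕ) (F : Matrix (Fin n) (Fin n) A) (j : Fin n) :
    xv q F j = ∑ i, algebraMap A (EF q F) (F i j) * xv q F i ^ q := by
  have h : Ideal.Quotient.mk (relF q F) (X j - ∑ i, C (F i j) * X i ^ q) = 0 :=
    Ideal.Quotient.eq_zero_iff_mem.2 (Ideal.subset_span ⟨j, rfl⟩)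
  rw [map_sub, sub_eq_zero, map_sum] at h
  refine h.trans (Finset.sum_congr rfl fun i _ => ?_)
  rw [map_mul, map_pow]
  rfl

/-- a homomorphism from `EF` is determined by the images of the variables -/
theorem hom_ext' {A : Type} [CommRing A] {n : ℕ} (q : ℕ) (F : Matrix (Fin n) (Fin n) A) {B : Type}
    [CommRing B] [Algebra A B] (f g : EF q F →ₐ[A] B) (h : ∀ j, f (xv q F j) = g (xv q F j)) : f = g := by
  refine Ideal.Quotient.algHom_ext A ?_
  refine MvPolynomial.algHom_ext fun j => ?_
  exact h j

/-- a row with `x = x^(q) F` defines a homomorphism -/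
theorem exists_hom {A : Type} [CommRing A] {n : ℕ} (q : ℕ) (F : Matrix (Fin n) (Fin n) A) {B : Type}
    [CommRing B] [Algebra A B] (x : Fin n → B) (h : ∀ j, x j = ∑ i, algebraMap A B (F i j) * x i ^ q) :
    ∃ f : EF q F →ₐ[A] B, ∀ j, f (xv q F j) = x j := by
  have hk : ∀ a : MvPolynomial (Fin n) A, a ∈ relF q F → aeval x a = 0 := by
    intro a ha
    have : relF q F ≤ RingHom.ker (aeval x : MvPolynomial (Fin n) A →ₐ[A] B) := by
      unfold relF
      rw [Ideal.span_le]
      rintro _ ⟨j, rfl⟩
      simp only [SetLike.mem_coe, RingHom.mem_ker, map_sub, map_sum, map_mul, map_pow, aeval_X,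
        aeval_C, sub_eq_zero]
      exact h j
    exact this ha
  refine ⟨Ideal.Quotient.liftₐ (relF q F) (aeval x) hk, fun j => ?_⟩
  change Ideal.Quotient.liftₐ (relF q F) (aeval x) hk (Ideal.Quotient.mk (relF q F) (X j)) = x j
  rw [Ideal.Quotient.liftₐ_apply, Ideal.Quotient.lift_mk]
  exact aeval_X x j

/-- the images of the variables satisfy the relations -/
theorem hom_rel {A : Type} [CommRing A] {n : ℕ} (q : ℕ) (F : Matrix (Fin n) (Fin n) A) {B : Type}
    [CommRing B] [Algebra A B] (f : EF q F →ₐ[A] B) (j : Fin n) :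
    f (xv q F j) = ∑ i, algebraMap A B (F i j) * f (xv q F i) ^ q := by
  conv_lhs => rw [xv_rel q F j]
  rw [map_sum]
  refine Finset.sum_congr rfl fun i _ => ?_
  rw [map_mul, map_pow, AlgHom.commutes]

theorem hETA : StETA := by
  intro A _ p a n hp h0 ha F
  have hfe : Algebra.FormallyEtale A (EF (p ^ a) F) := by
    refine Algebra.FormallyEtale.iff_comp_bijective.mpr fun B _ _ I hI => ?_
    have hB : (p : B) = 0 := by
      rw [← map_natCast (algebraMap A B) p, h0, map_zero]
    constructor
    · intro f g hfg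
      refine hom_ext' _ F f g fun j => ?_
      rw [hom_rel _ F f j, hom_rel _ F g j]
      refine Finset.sum_congr rfl fun i _ => ?_
      congr 1
      refine pow_q_eq p a hp ha hB I hI _ _ ?_
      have := DFunLike.congr_fun hfg (xv (p ^ a) F i)
      exact (Ideal.Quotient.mk_eq_mk_iff_sub_mem _ _).1 this
    · intro g
      choose y hy using fun j => Ideal.Quotient.mk_surjective (I := I) (g (xv (p ^ a) F j))
      set x : Fin n → B := fun j => ∑ i, algebraMap A B (F i j) * y i ^ p ^ a with hx
      have hxy : ∀ j, Ideal.Quotient.mk I (x j) = g (xv (p ^ a) F j) := by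
        intro j
        rw [hom_rel _ F g j, hx]
        simp only [map_sum, map_mul, map_pow]
        refine Finset.sum_congr rfl fun i _ => ?_
        rw [hy i]
        rfl
      have hxq : ∀ i, x i ^ p ^ a = y i ^ p ^ a := by
        intro i
        refine pow_q_eq p a hp ha hB I hI _ _ ?_
        rw [← Ideal.Quotient.mk_eq_mk_iff_sub_mem, hxy, hy]
      obtain ⟨f, hf⟩ := exists_hom (p ^ a) F x (fun j => by
        conv_lhs => rw [hx]
        exact Finset.sum_congr rfl fun i _ => by rw [hxq i])
      refine ⟨f, hom_ext' _ F _ _ fun j => ?_⟩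
      change Ideal.Quotient.mk I (f (xv (p ^ a) F j)) = _
      rw [hf j, hxy j]
  have hfp : Algebra.FinitePresentation A (EF (p ^ a) F) := by
    refine Algebra.FinitePresentation.quotient ?_
    exact Submodule.fg_span (Set.finite_range _)
  exact ⟨hfe, hfp⟩

end Pool.Agent.Helper12.ET
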